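import Pool.Agent.Y491.WG.Data

set_option autoImplicit false

namespace Pool.Agent.Y491.WG

theorem hY0 : SY TT 0 = 91002467703440 := by decide +kernel
theorem hY1 : SY TT 1 = 225755559547700 := by decide +kernel
theorem hY2 : SY TT 2 = 360508651391960 := by decide +kernel
theorem hY3 : SY TT 3 = 495263597551670 := by decide +kernel
theorem hY4 : SY TT 4 = 630018543711380 := by decide +kernel
theorem hY5 : SY TT 5 = 764781939277915 := by decide +kernel
theorem hY6 : SY TT 6 = 899545334844450 := by decide +kernel
theorem hY7 : SY TT 7 = 1034308730410985 := by decide +kernel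
theorem hY8 : SY TT 8 = 1167948962341309 := by decide +kernel
theorem hY9 : SY TT 9 = 1300943365657293 := by decide +kernel
theorem hY10 : SY TT 10 = 1433951696942657 := by decide +kernel
theorem hY11 : SY TT 11 = 1566961599097779 := by decide +kernel
theorem hY12 : SY TT 12 = 1699971501252901 := by decide +kernel
theorem hY13 : SY TT 13 = 1832981403408023 := by decide +kernel
theorem hY14 : SY TT 14 = 1965991305563145 := by decide +kernel
theorem hY15 : SY TT 15 = 2099001207718267 := by decide +kernel
theorem hY16 : SY TT 16 = 2231977269413813 := by decide +kernel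
theorem hY17 : SY TT 17 = 2364953331109359 := by decide +kernel
theorem hY18 : SY TT 18 = 2497929392804905 := by decide +kernel
theorem hY19 : SY TT 19 = 2630905454500451 := by decide +kernel
theorem hY20 : SY TT 20 = 2763880948628997 := by decide +kernel
theorem hY21 : SY TT 21 = 2896783642364647 := by decide +kernel
theorem hY22 : SY TT 22 = 3029686336100297 := by decide +kernel
theorem hY23 : SY TT 23 = 3158439367485981 := by decide +kernel
theorem hY24 : SY TT 24 = 3309002615809017 := by decide +kernel
theorem hY25 : SY TT 25 = 3459565864132053 := by decide +kernel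

theorem hY : (List.range 26).map (SY TT) = ly := by
  rw [show List.range 26 = [0, 1, 2, 3, 4, 5, 6, 7, 8, 9, 10, 11, 12, 13, 14, 15, 16, 17, 18, 19, 20, 21, 22, 23, 24, 25] from rfl]
  simp only [List.map_cons, List.map_nil, hY0, hY1, hY2, hY3, hY4, hY5, hY6, hY7, hY8, hY9, hY10, hY11, hY12, hY13, hY14, hY15, hY16, hY17, hY18, hY19, hY20, hY21, hY22, hY23, hY24, hY25]
  rfl

end Pool.Agent.Y491.WG
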