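import Pool.Agent.Y491.WG.Data

set_option autoImplicit false

namespace Pool.Agent.Y491.WG

theorem hX0 : SX TT 0 = 0 := by decide +kernel
theorem hX1 : SX TT 1 = 150563248323036 := by decide +kernel
theorem hX2 : SX TT 2 = 301126496646072 := by decide +kernel
theorem hX3 : SX TT 3 = 429879528031756 := by decide +kernel
theorem hX4 : SX TT 4 = 562782221767406 := by decide +kernel
theorem hX5 : SX TT 5 = 695684915503056 := by decide +kernel
theorem hX6 : SX TT 6 = 828660409631602 := by decide +kernel
theorem hX7 : SX TT 7 = 961636471327148 := by decide +kernel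
theorem hX8 : SX TT 8 = 1094612533022694 := by decide +kernel
theorem hX9 : SX TT 9 = 1227588594718240 := by decide +kernel
theorem hX10 : SX TT 10 = 1360564656413786 := by decide +kernel
theorem hX11 : SX TT 11 = 1493574558568908 := by decide +kernel
theorem hX12 : SX TT 12 = 1626584460724030 := by decide +kernel
theorem hX13 : SX TT 13 = 1759594362879152 := by decide +kernel
theorem hX14 : SX TT 14 = 1892604265034274 := by decide +kernel
theorem hX15 : SX TT 15 = 2025614167189396 := by decide +kernel
theorem hX16 : SX TT 16 = 2158622498474760 := by decide +kernel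
theorem hX17 : SX TT 17 = 2291616901790744 := by decide +kernel
theorem hX18 : SX TT 18 = 2425257133721068 := by decide +kernel
theorem hX19 : SX TT 19 = 2560020529287603 := by decide +kernel
theorem hX20 : SX TT 20 = 2694783924854138 := by decide +kernel
theorem hX21 : SX TT 21 = 2829547320420673 := by decide +kernel
theorem hX22 : SX TT 22 = 2964302266580383 := by decide +kernel
theorem hX23 : SX TT 23 = 3099057212740093 := by decide +kernel
theorem hX24 : SX TT 24 = 3233810304584353 := by decide +kernel
theorem hX25 : SX TT 25 = 3368563396428613 := by decide +kernel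

theorem hX : (List.range 26).map (SX TT) = lx := by
  rw [show List.range 26 = [0, 1, 2, 3, 4, 5, 6, 7, 8, 9, 10, 11, 12, 13, 14, 15, 16, 17, 18, 19, 20, 21, 22, 23, 24, 25] from rfl]
  simp only [List.map_cons, List.map_nil, hX0, hX1, hX2, hX3, hX4, hX5, hX6, hX7, hX8, hX9, hX10, hX11, hX12, hX13, hX14, hX15, hX16, hX17, hX18, hX19, hX20, hX21, hX22, hX23, hX24, hX25]
  rfl

end Pool.Agent.Y491.WG
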