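import Pool.Agent.Y491.WG.Main

/-! The poset with two chains of 26 elements. -/

set_option autoImplicit false

namespace Pool.Agent.Y491.WG

open Pool.Agent.H13R3.WB Pool.Agent.W853

/-- the numbers `p i` in base 64 -/
def pB : ℕ := 2208201028527707997091765354007740516610229927936
/-- the numbers `q j` in base 64 -/
def qB : ℕ := 2402487913902393924626728303851234537092283633728

/-- the poset -/
def TT : TC 26 26 where
  p i := Nat.mod (Nat.div pB (Nat.pow 64 i)) 64
  q j := Nat.mod (Nat.div qB (Nat.pow 64 j)) 64
  p0 := by decide +kernel
  q0 := by decide +kernel
  pmono := by decide +kernel
  qmono := by decide +kernel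
  ple := by decide +kernel
  qle := by decide +kernel
  comp := by decide +kernel

theorem num_TT : TC.num TT.R 26 (26 + 26) = 67834624786903 := by decide +kernel

/-- the sums of the positions, first chain -/
def lx : List ℕ := [0, 150563248323036, 301126496646072, 429879528031756, 562782221767406, 695684915503056, 828660409631602, 961636471327148, 1094612533022694, 1227588594718240, 1360564656413786, 1493574558568908, 1626584460724030, 1759594362879152, 1892604265034274, 2025614167189396, 2158622498474760, 2291616901790744, 2425257133721068, 2560020529287603, 2694783924854138, 2829547320420673, 2964302266580383, 3099057212740093, 3233810304584353, 3368563396428613]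

/-- the sums of the positions, second chain -/
def ly : List ℕ := [91002467703440, 225755559547700, 360508651391960, 495263597551670, 630018543711380, 764781939277915, 899545334844450, 1034308730410985, 1167948962341309, 1300943365657293, 1433951696942657, 1566961599097779, 1699971501252901, 1832981403408023, 1965991305563145, 2099001207718267, 2231977269413813, 2364953331109359, 2497929392804905, 2630905454500451, 2763880948628997, 2896783642364647, 3029686336100297, 3158439367485981, 3309002615809017, 3459565864132053]

theorem sep : ∀ z z' : Fin 26 ⊕ Fin 26, z ≠ z' → 7 * 67834624786903 + 8 * pos lx ly z < 8 * pos lx ly z' ∨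
      7 * 67834624786903 + 8 * pos lx ly z' < 8 * pos lx ly z := by decide +kernel

end Pool.Agent.Y491.WG
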