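import Pool.Agent.W853.TwoChains

/-!
# Average heights in posets that consist of two chains
-/

set_option autoImplicit false

open Finset

namespace Pool.Agent.Y491.WG

open Pool.Agent.H13R3.WB Pool.Agent.W853

variable {a b : ℕ} (T : TC a b)

/-- sum of the positions of `x_u` -/
def SX (u : ℕ) : ℕ :=
  u * TC.num T.R a (a + b) + ((List.range b).map fun v => TC.num (T.RY u v) a (a + b)).sum

/-- sum of the positions of `y_v` -/
def SY (v : ℕ) : ℕ :=
  v * TC.num T.R a (a + b) + ((List.range a).map fun u => TC.num (T.RX u v) a (a + b)).sum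

lemma val_eq {W : Type} [Fintype W] [DecidableEq W] {n : ℕ} (f : W ≃ Fin n) (x : W) :
    ((f x : Fin n) : ℕ) = (univ.filter fun z : W => f z < f x).card := by
  have h1 : (univ.filter fun z : W => f z < f x).card = (Finset.Iio (f x)).card := by
    refine Finset.card_bij (fun z _ => f z) ?_ ?_ ?_
    · intro z hz
      rw [Finset.mem_filter] at hz
      rw [Finset.mem_Iio]
      exact hz.2
    · intro z _ z' _ h
      exact f.injective h
    · intro i hi
      rw [Finset.mem_Iio] at hi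
      exact ⟨f.symm i, by rw [Finset.mem_filter]; simpa using hi, by simp⟩
  rw [h1, Fin.card_Iio]

/-- the sum of the positions, as a sum of numbers of linear extensions -/
lemma sum_pos {W : Type} [Fintype W] [DecidableEq W] {n : ℕ} (L : Finset (W ≃ Fin n)) (x : W) :
    ∑ f ∈ L, ((f x : Fin n) : ℕ) = ∑ z : W, (L.filter fun f => f z < f x).card := by
  have h1 : ∀ f : W ≃ Fin n, ((f x : Fin n) : ℕ) = ∑ z : W, if f z < f x then 1 else 0 := by
    intro f
    rw [val_eq f x, Finset.card_filter]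
  rw [Finset.sum_congr rfl fun f _ => h1 f, Finset.sum_comm]
  refine Finset.sum_congr rfl fun z _ => ?_
  rw [Finset.card_filter]

lemma nat_sum_range (g : ℕ → ℕ) (k : ℕ) : ((List.range k).map g).sum = ∑ i : Fin k, g i := by
  rw [Fin.sum_univ_eq_sum_range (fun i => g i) k]
  induction k with
  | zero => simp
  | succ k ih => rw [List.range_succ, List.map_append, List.sum_append, ih,
      Finset.sum_range_succ]; simp

lemma sum_lt (N k : ℕ) (u : Fin k) : (∑ i : Fin k, if i < u then N else 0) = u * N := by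
  rw [← Finset.sum_filter, Finset.sum_const, smul_eq_mul]
  congr 1
  have : (univ.filter fun i : Fin k => i < u) = Finset.Iio u := by
    ext i; simp
  rw [this, Fin.card_Iio]

section

variable {T}
variable {L : Finset (T.W ≃ Fin (a + b))}

lemma mem_iff (hL : ∀ f : T.W ≃ Fin (a + b), f ∈ L ↔ ∀ x y : T.W, x < y → f x < f y)
    (f : T.W ≃ Fin (a + b)) : f ∈ L ↔ Monotone f := by
  rw [hL]
  constructor
  · intro h x y hxy
    rcases eq_or_lt_of_le hxy with h1 | h1
    · rw [h1]
    · exact (h x y h1).le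
  · intro h x y hxy
    exact lt_of_le_of_ne (h hxy.le) fun h1 => hxy.ne (f.injective h1)

lemma card_L (hL : ∀ f : T.W ≃ Fin (a + b), f ∈ L ↔ ∀ x y : T.W, x < y → f x < f y) :
    L.card = TC.num T.R a (a + b) := by
  rw [← T.card_all]
  exact (Nat.subtype_card L (fun f => mem_iff hL f)).symm

lemma card_filter' (hL : ∀ f : T.W ≃ Fin (a + b), f ∈ L ↔ ∀ x y : T.W, x < y → f x < f y)
    (z x : T.W) : (L.filter fun f => f z < f x).card =
      Nat.card {f : T.W ≃ Fin (a + b) // Monotone f ∧ f z < f x} := by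
  refine (Nat.subtype_card _ (fun f => ?_)).symm
  rw [Finset.mem_filter, mem_iff hL f]

lemma same (hL : ∀ f : T.W ≃ Fin (a + b), f ∈ L ↔ ∀ x y : T.W, x < y → f x < f y) {z x : T.W}
    (h : z < x) : (L.filter fun f => f z < f x).card = TC.num T.R a (a + b) := by
  rw [← card_L hL, Finset.filter_true_of_mem]
  intro f hf
  exact (hL f).1 hf z x h

lemma none (hL : ∀ f : T.W ≃ Fin (a + b), f ∈ L ↔ ∀ x y : T.W, x < y → f x < f y) {z x : T.W}
    (h : x ≤ z) : (L.filter fun f => f z < f x).card = 0 := by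
  rw [Finset.card_eq_zero, Finset.filter_eq_empty_iff]
  intro f hf
  rw [not_lt]
  exact (mem_iff hL f).1 hf h

lemma sum_X (hL : ∀ f : T.W ≃ Fin (a + b), f ∈ L ↔ ∀ x y : T.W, x < y → f x < f y) (u : Fin a) :
    ∑ f ∈ L, ((f (T.X u) : Fin (a + b)) : ℕ) = SX T u := by
  rw [sum_pos]
  have e := Fintype.sum_sum_type (fun z : Fin a ⊕ Fin b =>
    (L.filter fun f : T.W ≃ Fin (a + b) => f (show T.W from z) < f (T.X u)).card)
  refine e.trans ?_
  unfold SX
  congr 1
  · rw [← sum_lt (TC.num T.R a (a + b)) a u]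
    refine Finset.sum_congr rfl fun i _ => ?_
    split_ifs with h
    · exact same hL (z := T.X i) (x := T.X u) (lt_of_le_of_ne (T.X_le_X.2 h.le)
        fun h1 => h.ne (Sum.inl_injective h1))
    · exact none hL (z := T.X i) (x := T.X u) (T.X_le_X.2 (not_lt.1 h))
  · rw [nat_sum_range]
    refine Finset.sum_congr rfl fun v _ => ?_
    rw [← T.card_YX u v]
    exact card_filter' hL (T.Y v) (T.X u)

lemma sum_Y (hL : ∀ f : T.W ≃ Fin (a + b), f ∈ L ↔ ∀ x y : T.W, x < y → f x < f y) (v : Fin b) :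
    ∑ f ∈ L, ((f (T.Y v) : Fin (a + b)) : ℕ) = SY T v := by
  rw [sum_pos]
  have e := Fintype.sum_sum_type (fun z : Fin a ⊕ Fin b =>
    (L.filter fun f : T.W ≃ Fin (a + b) => f (show T.W from z) < f (T.Y v)).card)
  refine e.trans ?_
  unfold SY
  rw [add_comm]
  congr 1
  · rw [← sum_lt (TC.num T.R a (a + b)) b v]
    refine Finset.sum_congr rfl fun i _ => ?_
    split_ifs with h
    · exact same hL (z := T.Y i) (x := T.Y v) (lt_of_le_of_ne (T.Y_le_Y.2 h.le)
        fun h1 => h.ne (Sum.inr_injective h1))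
    · exact none hL (z := T.Y i) (x := T.Y v) (T.Y_le_Y.2 (not_lt.1 h))
  · rw [nat_sum_range]
    refine Finset.sum_congr rfl fun u _ => ?_
    rw [← T.card_XY u v]
    exact card_filter' hL (T.X u) (T.Y v)

end

/-- the positions -/
def pos (lx ly : List ℕ) : Fin a ⊕ Fin b → ℕ
  | Sum.inl u => lx.getD u 0
  | Sum.inr v => ly.getD v 0

/-- the criterion -/
theorem gaps (lx ly : List ℕ) (N : ℕ) (hN : TC.num T.R a (a + b) = N) (hN0 : 0 < N)
    (hx : (List.range a).map (SX T) = lx) (hy : (List.range b).map (SY T) = ly)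
    (hs : ∀ z z' : Fin a ⊕ Fin b, z ≠ z' → 7 * N + 8 * pos lx ly z < 8 * pos lx ly z' ∨
      7 * N + 8 * pos lx ly z' < 8 * pos lx ly z) :
    ∀ L : Finset (T.W ≃ Fin (Fintype.card T.W)),
      (∀ f : T.W ≃ Fin (Fintype.card T.W), f ∈ L ↔ ∀ x y : T.W, x < y → f x < f y) →
      ∀ x y : T.W, x ≠ y →
        0 ≤ (∑ f ∈ L, ((f y : ℕ) : ℝ)) / (L.card : ℝ)
            - (∑ f ∈ L, ((f x : ℕ) : ℝ)) / (L.card : ℝ) →
        7 / 8 < (∑ f ∈ L, ((f y : ℕ) : ℝ)) / (L.card : ℝ)
            - (∑ f ∈ L, ((f x : ℕ) : ℝ)) / (L.card : ℝ) := by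
  have key : ∀ n, n = a + b → ∀ L : Finset (T.W ≃ Fin n),
      (∀ f : T.W ≃ Fin n, f ∈ L ↔ ∀ x y : T.W, x < y → f x < f y) →
      ∀ x y : T.W, x ≠ y →
        0 ≤ (∑ f ∈ L, ((f y : ℕ) : ℝ)) / (L.card : ℝ)
            - (∑ f ∈ L, ((f x : ℕ) : ℝ)) / (L.card : ℝ) →
        7 / 8 < (∑ f ∈ L, ((f y : ℕ) : ℝ)) / (L.card : ℝ)
            - (∑ f ∈ L, ((f x : ℕ) : ℝ)) / (L.card : ℝ) := by
    rintro n rfl L hL x y hxy h0
    have hpos : ∀ z : T.W, ∑ f ∈ L, ((f z : ℕ) : ℝ) = (pos lx ly z : ℝ) := by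
      intro z
      rcases z with u | v
      · have h1 := sum_X hL u
        have h2 : pos (a := a) (b := b) lx ly (Sum.inl u) = SX T u := by
          unfold pos
          rw [← hx]
          simp
        rw [h2, ← h1]
        push_cast
        rfl
      · have h1 := sum_Y hL v
        have h2 : pos (a := a) (b := b) lx ly (Sum.inr v) = SY T v := by
          unfold pos
          rw [← hy]
          simp
        rw [h2, ← h1]
        push_cast
        rfl
    rw [hpos, hpos, card_L hL, hN] at h0 ⊢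
    have hN' : (0 : ℝ) < N := by exact_mod_cast hN0
    rw [← sub_div] at h0 ⊢
    have h1 : (0 : ℝ) ≤ (pos lx ly y : ℝ) - pos lx ly x := by
      by_contra h
      push Not at h
      have := div_neg_of_neg_of_pos h hN'
      linarith
    rw [lt_div_iff₀ hN']
    rcases hs x y hxy with h2 | h2
    · have h3 : (7 : ℝ) * N + 8 * pos lx ly x < 8 * pos lx ly y := by exact_mod_cast h2
      linarith
    · have h3 : (7 : ℝ) * N + 8 * pos lx ly y < 8 * pos lx ly x := by exact_mod_cast h2
      linarith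
  exact key _ T.card_W

end Pool.Agent.Y491.WG
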